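import Mathlib
import Pool.Agent.Helper820_Eden.Main
import Pool.Agent.Helper820_Eden.Cert16
import Pool.Agent.Helper820_Eden.Cert17
import Pool.Agent.Helper820_Eden.Cert18
import Pool.Agent.Helper820_Eden.Cert19
import Pool.Agent.Helper820_Eden.Cert20
import Pool.Agent.Helper820_Eden.Cert21
import Pool.Agent.Helper820_Eden.Cert22
import Pool.Agent.Helper820_Eden.Cert23
import Pool.Agent.Helper820_Eden.Cert24
import Pool.Agent.Helper820_Eden.Cert25
import Pool.Agent.Helper820_Eden.Cert26
import Pool.Agent.Helper820_Eden.Cert27
import Pool.Agent.Helper820_Eden.Cert28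
import Pool.Agent.Helper820_Eden.Cert29
import Pool.Agent.Helper820_Eden.Cert30
import Pool.Agent.Helper820_Eden.Cert31
import Pool.Agent.Helper820_Eden.Cert32
import Pool.Agent.Helper820_Eden.Cert33
import Pool.Agent.Helper820_Eden.Cert34

set_option autoImplicit false
open MeasureTheory ProbabilityTheory Filter Topology

namespace Pool.Agent.Results.MP_edae2b_pr.NotBallFrom16

/-- For 16 ≤ d < 35, with iid Exp(1) edge weights on ℤ^d, there is no constant c such that for
every lattice point x the passage time from 0 to nx, divided by n, tends almost surely to c times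
the Euclidean norm of x. -/
theorem result :
    ∀ d : ℕ, 16 ≤ d → d < 35 →
      ∀ (Ω : Type) [MeasurableSpace Ω] (P : Measure Ω) [IsProbabilityMeasure P]
        (ω : Sym2 (Fin d → ℤ) → Ω → ℝ),
        iIndepFun ω P →
        (∀ e, Measurable (ω e) ∧ P.map (ω e) = expMeasure 1) →
        ¬ ∃ c : ℝ, ∀ x : Fin d → ℤ, ∀ᵐ t ∂P,
          Tendsto
            (fun n : ℕ =>
              (⨅ p : (SimpleGraph.fromRel
                  (fun y z : Fin d → ℤ => ∑ i, |y i - z i| = 1)).Walk 0 (n • x),
                  (p.edges.map (fun e => ω e t)).sum) / (n : ℝ))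
            atTop (𝓝 (c * Real.sqrt (∑ i, ((x i : ℝ)) ^ 2))) := by
  intro d h1 h2 Ω _ P _ ω hind hlaw
  interval_cases d
  · exact Helper820_Eden.not_ball 16 10000000 842281 255 95 Helper820_Eden.gs16 (by norm_num)
      (by norm_num) (by norm_num) Helper820_Eden.cert16 (by norm_num) Ω P ω hind hlaw
  · exact Helper820_Eden.not_ball 17 10000000 816056 185 75 Helper820_Eden.gs17 (by norm_num)
      (by norm_num) (by norm_num) Helper820_Eden.cert17 (by norm_num) Ω P ω hind hlaw
  · exact Helper820_Eden.not_ball 18 10000000 792235 150 70 Helper820_Eden.gs18 (by norm_num)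
      (by norm_num) (by norm_num) Helper820_Eden.cert18 (by norm_num) Ω P ω hind hlaw
  · exact Helper820_Eden.not_ball 19 10000000 770388 135 65 Helper820_Eden.gs19 (by norm_num)
      (by norm_num) (by norm_num) Helper820_Eden.cert19 (by norm_num) Ω P ω hind hlaw
  · exact Helper820_Eden.not_ball 20 10000000 750657 110 70 Helper820_Eden.gs20 (by norm_num)
      (by norm_num) (by norm_num) Helper820_Eden.cert20 (by norm_num) Ω P ω hind hlaw
  · exact Helper820_Eden.not_ball 21 10000000 732106 100 70 Helper820_Eden.gs21 (by norm_num)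
      (by norm_num) (by norm_num) Helper820_Eden.cert21 (by norm_num) Ω P ω hind hlaw
  · exact Helper820_Eden.not_ball 22 10000000 713779 110 60 Helper820_Eden.gs22 (by norm_num)
      (by norm_num) (by norm_num) Helper820_Eden.cert22 (by norm_num) Ω P ω hind hlaw
  · exact Helper820_Eden.not_ball 23 10000000 698300 100 60 Helper820_Eden.gs23 (by norm_num)
      (by norm_num) (by norm_num) Helper820_Eden.cert23 (by norm_num) Ω P ω hind hlaw
  · exact Helper820_Eden.not_ball 24 10000000 683574 105 55 Helper820_Eden.gs24 (by norm_num)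
      (by norm_num) (by norm_num) Helper820_Eden.cert24 (by norm_num) Ω P ω hind hlaw
  · exact Helper820_Eden.not_ball 25 10000000 669037 90 60 Helper820_Eden.gs25 (by norm_num)
      (by norm_num) (by norm_num) Helper820_Eden.cert25 (by norm_num) Ω P ω hind hlaw
  · exact Helper820_Eden.not_ball 26 10000000 656299 95 55 Helper820_Eden.gs26 (by norm_num)
      (by norm_num) (by norm_num) Helper820_Eden.cert26 (by norm_num) Ω P ω hind hlaw
  · exact Helper820_Eden.not_ball 27 10000000 642878 95 55 Helper820_Eden.gs27 (by norm_num)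
      (by norm_num) (by norm_num) Helper820_Eden.cert27 (by norm_num) Ω P ω hind hlaw
  · exact Helper820_Eden.not_ball 28 10000000 631372 80 60 Helper820_Eden.gs28 (by norm_num)
      (by norm_num) (by norm_num) Helper820_Eden.cert28 (by norm_num) Ω P ω hind hlaw
  · exact Helper820_Eden.not_ball 29 10000000 619301 80 60 Helper820_Eden.gs29 (by norm_num)
      (by norm_num) (by norm_num) Helper820_Eden.cert29 (by norm_num) Ω P ω hind hlaw
  · exact Helper820_Eden.not_ball 30 10000000 609707 85 55 Helper820_Eden.gs30 (by norm_num)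
      (by norm_num) (by norm_num) Helper820_Eden.cert30 (by norm_num) Ω P ω hind hlaw
  · exact Helper820_Eden.not_ball 31 10000000 599045 85 55 Helper820_Eden.gs31 (by norm_num)
      (by norm_num) (by norm_num) Helper820_Eden.cert31 (by norm_num) Ω P ω hind hlaw
  · exact Helper820_Eden.not_ball 32 10000000 590338 70 60 Helper820_Eden.gs32 (by norm_num)
      (by norm_num) (by norm_num) Helper820_Eden.cert32 (by norm_num) Ω P ω hind hlaw
  · exact Helper820_Eden.not_ball 33 10000000 580539 70 60 Helper820_Eden.gs33 (by norm_num)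
      (by norm_num) (by norm_num) Helper820_Eden.cert33 (by norm_num) Ω P ω hind hlaw
  · exact Helper820_Eden.not_ball 34 10000000 571216 70 60 Helper820_Eden.gs34 (by norm_num)
      (by norm_num) (by norm_num) Helper820_Eden.cert34 (by norm_num) Ω P ω hind hlaw

end Pool.Agent.Results.MP_edae2b_pr.NotBallFrom16
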